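import Pool.Agent.Helper645.Intal.Order

/-!
The algebra of finite and cofinite sets, presented as the interval algebra of the order `pre`.
-/

set_option autoImplicit false

namespace Pool.Agent.Helper645.Intal

open Finset

/-- Finite or cofinite. -/
def FCo (X : Set ℕ) : Prop := X.Finite ∨ Xᶜ.Finite

/-- The Boolean algebra of finite and cofinite sets. -/
def FC : BooleanSubalgebra (Set ℕ) where
  carrier := {X | FCo X}
  supClosed' := by
    intro X hX Y hY
    show FCo (X ∪ Y)
    rcases hX with hX | hX
    · rcases hY with hY | hY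
      · exact Or.inl (hX.union hY)
      · exact Or.inr (hY.subset (Set.compl_subset_compl.mpr Set.subset_union_right))
    · exact Or.inr (hX.subset (Set.compl_subset_compl.mpr Set.subset_union_left))
  infClosed' := by
    intro X hX Y hY
    show FCo (X ∩ Y)
    rcases hX with hX | hX
    · exact Or.inl (hX.subset Set.inter_subset_left)
    · rcases hY with hY | hY
      · exact Or.inl (hY.subset Set.inter_subset_right)
      · refine Or.inr ?_
        rw [Set.compl_inter]
        exact hX.union hY
  compl_mem' := by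
    intro X hX
    show FCo Xᶜ
    rcases hX with hX | hX
    · exact Or.inr (by rw [compl_compl]; exact hX)
    · exact Or.inl hX
  bot_mem' := Or.inl Set.finite_empty

theorem mem_FC {X : Set ℕ} : X ∈ FC ↔ FCo X := Iff.rfl

theorem FCo_symmDiff {X Y : Set ℕ} (hX : FCo X) (hY : FCo Y) : FCo (symmDiff X Y) := by
  have h1 : X ∈ FC := hX
  have h2 : Y ∈ FC := hY
  have h3 : symmDiff X Y ∈ FC := by
    rw [symmDiff_def]
    exact FC.sup_mem (FC.sdiff_mem h1 h2) (FC.sdiff_mem h2 h1)
  exact h3

/-- A class of sets closed under symmetric differences, containing the singletons and the whole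
set, contains all finite and cofinite sets. -/
theorem all_of_symmDiff (C : Set ℕ → Prop) (h0 : C ∅) (h1 : ∀ m, C {m}) (hu : C Set.univ)
    (hs : ∀ X Y, C X → C Y → C (symmDiff X Y)) {X : Set ℕ} (hX : FCo X) : C X := by
  have hfin : ∀ S : Finset ℕ, C (S : Set ℕ) := by
    intro S
    induction S using Finset.induction_on with
    | empty => simpa using h0
    | insert a S ha ih =>
      have h2 : ((insert a S : Finset ℕ) : Set ℕ) = symmDiff {a} (S : Set ℕ) := by
        ext x
        simp only [Finset.coe_insert, Set.mem_insert_iff, Finset.mem_coe, Set.mem_symmDiff,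
          Set.mem_singleton_iff]
        constructor
        · rintro (h | h)
          · subst h; exact Or.inl ⟨rfl, ha⟩
          · exact Or.inr ⟨h, fun h' => ha (h' ▸ h)⟩
        · rintro (⟨h, -⟩ | ⟨h, -⟩)
          · exact Or.inl h
          · exact Or.inr h
      rw [h2]
      exact hs _ _ (h1 a) ih
  rcases hX with hX | hX
  · have := hfin hX.toFinset
    simpa using this
  · have h2 := hs _ _ hu (hfin hX.toFinset)
    have h3 : symmDiff Set.univ (hX.toFinset : Set ℕ) = X := by
      ext x
      simp [Set.mem_symmDiff]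
    rwa [h3] at h2

/-! ### Sets given by parities -/

section

variable (R : ℕ → ℕ → Prop) [DecidableRel R]

/-- The parity of the number of elements of `S` below `x`. -/
def par (S : Finset ℕ) (x : ℕ) : ZMod 2 := ∑ s ∈ S, if R s x then 1 else 0

/-- The set given by `S`. -/
def XS (S : Finset ℕ) : Set ℕ := {x | par R S x = 1}

theorem par_symmDiff (S T : Finset ℕ) (x : ℕ) : par R (symmDiff S T) x = par R S x + par R T x := by
  unfold par
  have h1 : ∑ s ∈ S, (if R s x then (1 : ZMod 2) else 0) =
      ∑ s ∈ S \ T, (if R s x then (1 : ZMod 2) else 0) + ∑ s ∈ S ∩ T, if R s x then 1 else 0 := by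
    rw [← Finset.sum_sdiff (Finset.inter_subset_left (s₁ := S) (s₂ := T)), Finset.sdiff_inter_self_left]
  have h2 : ∑ s ∈ T, (if R s x then (1 : ZMod 2) else 0) =
      ∑ s ∈ T \ S, (if R s x then (1 : ZMod 2) else 0) + ∑ s ∈ S ∩ T, if R s x then 1 else 0 := by
    rw [← Finset.sum_sdiff (Finset.inter_subset_right (s₁ := S) (s₂ := T)),
      Finset.sdiff_inter_self_right]
  rw [h1, h2, symmDiff_def, Finset.sup_eq_union, Finset.sum_union]
  · have h3 : ∀ a b c : ZMod 2, a + b = a + c + (b + c) := by decide
    exact h3 _ _ _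
  · exact disjoint_sdiff_sdiff

theorem zmod2_cases (a : ZMod 2) : a = 0 ∨ a = 1 := by
  revert a; decide

theorem XS_symmDiff (S T : Finset ℕ) : XS R (symmDiff S T) = symmDiff (XS R S) (XS R T) := by
  ext x
  simp only [XS, Set.mem_ofPred_eq, Set.mem_symmDiff, par_symmDiff]
  generalize par R S x = a
  generalize par R T x = b
  revert a b
  decide

theorem XS_empty : XS R ∅ = ∅ := by
  ext x
  simp [XS, par]

theorem XS_singleton (s : ℕ) : XS R {s} = {x | R s x} := by
  ext x
  simp only [XS, par, Finset.sum_singleton, Set.mem_ofPred_eq]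
  by_cases h : R s x <;> simp [h]

end

/-! ### The order `pre` -/

theorem up_FCo (s : ℕ) : FCo {x | pre s x} := by
  by_cases h : Tr s
  · refine Or.inr ((Set.finite_Iic s).subset ?_)
    intro x hx
    have hx' : ¬ pre s x := hx
    exact tr_fin h ((pre_total s x).resolve_left hx')
  · obtain ⟨N, hN⟩ := ntr_fin h
    exact Or.inl ((Set.finite_Iic N).subset fun x hx => hN x hx)

theorem up_finite_iff (s : ℕ) : {x | pre s x}.Finite ↔ ¬ Tr s := by
  constructor
  · intro h hT
    have h1 : {x | pre s x}ᶜ.Finite := by
      refine (Set.finite_Iic s).subset ?_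
      intro x hx
      have hx' : ¬ pre s x := hx
      exact tr_fin hT ((pre_total s x).resolve_left hx')
    have h2 : (Set.univ : Set ℕ).Finite := by
      rw [← Set.union_compl_self {x | pre s x}]
      exact h.union h1
    exact Set.infinite_univ h2
  · intro h
    obtain ⟨N, hN⟩ := ntr_fin h
    exact (Set.finite_Iic N).subset fun x hx => hN x hx

theorem XS_FCo (S : Finset ℕ) : FCo (XS pre S) := by
  induction S using Finset.induction_on with
  | empty => rw [XS_empty]; exact Or.inl Set.finite_empty
  | insert a S ha ih =>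
    have h1 : insert a S = symmDiff {a} S := by
      ext x
      simp only [Finset.mem_insert, Finset.mem_symmDiff, Finset.mem_singleton]
      constructor
      · rintro (h | h)
        · subst h; exact Or.inl ⟨rfl, ha⟩
        · exact Or.inr ⟨h, fun h' => ha (h' ▸ h)⟩
      · rintro (⟨h, -⟩ | ⟨h, -⟩)
        · exact Or.inl h
        · exact Or.inr h
    rw [h1, XS_symmDiff, XS_singleton]
    exact FCo_symmDiff (up_FCo a) ih

/-- A nonempty finite set has a least element. -/
theorem exists_least (S : Set ℕ) (hS : S.Finite) (hne : S.Nonempty) :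
    ∃ m ∈ S, ∀ x ∈ S, pre m x := by
  have h1 : (show Set M from S).Finite := hS
  obtain ⟨m, hm, hmin⟩ := Set.exists_min_image (show Set M from S) (id : M → M) h1 hne
  exact ⟨m, hm, fun x hx => hmin x hx⟩

/-- A nonempty set has a least element, if it contains a true stage or is finite. -/
theorem exists_least' (S : Set ℕ) {t : ℕ} (ht : Tr t) (htS : t ∈ S) :
    ∃ m ∈ S, ∀ x ∈ S, pre m x := by
  obtain ⟨m, ⟨hm, hmt⟩, hmin⟩ := exists_least {x | x ∈ S ∧ pre x t}
    ((Set.finite_Iic t).subset fun x hx => tr_fin ht hx.2) ⟨t, htS, pre_refl t⟩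
  refine ⟨m, hm, fun x hx => ?_⟩
  rcases pre_total x t with h | h
  · exact hmin x ⟨hx, h⟩
  · exact pre_trans hmt h

/-- The least element of the order. -/
theorem exists_bot : ∃ m, ∀ x, pre m x := by
  obtain ⟨t, ht, -⟩ := exists_tr 0
  obtain ⟨m, -, hm⟩ := exists_least' Set.univ ht (Set.mem_univ t)
  exact ⟨m, fun x => hm x (Set.mem_univ x)⟩

theorem XS_surj {X : Set ℕ} (hX : FCo X) : ∃ S, XS pre S = X := by
  apply all_of_symmDiff (fun X => ∃ S, XS pre S = X) _ _ _ _ hX
  · exact ⟨∅, XS_empty pre⟩
  · intro m
    by_cases hne : ∃ x, pre m x ∧ x ≠ m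
    · -- an immediate successor
      obtain ⟨n, ⟨hn1, hn2⟩, hmin⟩ : ∃ n ∈ {x | pre m x ∧ x ≠ m}, ∀ x ∈ {x | pre m x ∧ x ≠ m},
          pre n x := by
        by_cases hT : Tr m
        · obtain ⟨K, hK⟩ := exists_tr (ff m)
          refine exists_least' _ hK.1 ?_
          have hmK : m ≠ K := by
            rintro rfl
            exact lt_irrefl _ hK.2
          have hlt : m < K := by
            by_contra hc
            have h2 : K < m := by omega
            have := hK.1 m h2
            omega
          exact ⟨Or.inl ⟨hlt.le, tr_alive hT K⟩, fun h => hmK h.symm⟩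
        · obtain ⟨N, hN⟩ := ntr_fin hT
          obtain ⟨x, hx⟩ := hne
          exact exists_least _ ((Set.finite_Iic N).subset fun x hx => hN x hx.1) ⟨x, hx⟩
      refine ⟨symmDiff {m} {n}, ?_⟩
      rw [XS_symmDiff, XS_singleton, XS_singleton]
      ext x
      simp only [Set.mem_symmDiff, Set.mem_ofPred_eq, Set.mem_singleton_iff]
      constructor
      · rintro (⟨h1, h2⟩ | ⟨h1, h2⟩)
        · by_contra hc
          exact h2 (hmin x ⟨h1, hc⟩)
        · exact absurd (pre_trans hn1 h1) h2
      · intro h
        subst h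
        refine Or.inl ⟨pre_refl _, fun h => ?_⟩
        exact hn2 (pre_antisymm h hn1)
    · push Not at hne
      refine ⟨{m}, ?_⟩
      rw [XS_singleton]
      ext x
      simp only [Set.mem_ofPred_eq, Set.mem_singleton_iff]
      constructor
      · exact hne x
      · intro h
        subst h
        exact pre_refl _
  · obtain ⟨m, hm⟩ := exists_bot
    refine ⟨{m}, ?_⟩
    rw [XS_singleton]
    ext x
    simp [hm x]
  · rintro X Y ⟨S, rfl⟩ ⟨T, rfl⟩
    exact ⟨symmDiff S T, XS_symmDiff pre S T⟩

theorem XS_inj : Function.Injective (XS pre) := by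
  intro S T hST
  by_contra hne
  have hD : (symmDiff S T).Nonempty := by
    rw [Finset.nonempty_iff_ne_empty]
    intro h
    apply hne
    have : symmDiff S T = ⊥ := h
    exact symmDiff_eq_bot.mp this
  obtain ⟨m, hm, hmin⟩ := exists_least (symmDiff S T : Finset ℕ) (Finset.finite_toSet _) hD
  have h1 : XS pre (symmDiff S T) = ∅ := by
    rw [XS_symmDiff, hST, symmDiff_self]; rfl
  have h2 : m ∈ XS pre (symmDiff S T) := by
    show par pre (symmDiff S T) m = 1
    unfold par
    rw [Finset.sum_eq_single m]
    · rw [if_pos (pre_refl m)]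
    · intro b hb hbm
      rw [if_neg]
      intro hbm'
      exact hbm (pre_antisymm hbm' (hmin b hb))
    · intro h
      exact absurd hm h
  rw [h1] at h2
  exact h2

/-- The enumeration of the algebra by finite sets. -/
noncomputable def eS : Finset ℕ ≃ FC :=
  Equiv.ofBijective (fun S => ⟨XS pre S, XS_FCo S⟩)
    ⟨fun S T h => XS_inj (congrArg Subtype.val h), fun X => by
      obtain ⟨S, hS⟩ := XS_surj X.2
      exact ⟨S, Subtype.ext hS⟩⟩

/-- The enumeration of the algebra. -/
noncomputable def ee : ℕ ≃ FC := equivBitIndices.trans eS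

theorem ee_val (n : ℕ) : ((ee n : FC) : Set ℕ) = XS pre n.bitIndices.toFinset := rfl

end Pool.Agent.Helper645.Intal
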