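import Pool.Agent.Helper645.Intal.Alg

/-!
Computability of the operations of the presented algebra.
-/

set_option autoImplicit false

namespace Pool.Agent.Helper645.Intal

open Finset

/-- The set of binary digits. -/
def bs (n : ℕ) : Finset ℕ := n.bitIndices.toFinset

theorem bs_sum (n : ℕ) : ∑ i ∈ bs n, 2 ^ i = n := Finset.sum_toFinset_bitIndices_two_pow n

theorem sum_bs (S : Finset ℕ) : bs (∑ i ∈ S, 2 ^ i) = S := Finset.toFinset_bitIndices_sum_two_pow S

theorem mem_bs (n i : ℕ) : i ∈ bs n ↔ (n / 2 ^ i) % 2 = 1 := by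
  unfold bs
  rw [List.mem_toFinset, Nat.mem_bitIndices, Nat.testBit_eq_decide_div_mod_eq, decide_eq_true_iff]

/-- Change the digit `k`. -/
def flip (a k : ℕ) : ℕ := if (a / 2 ^ k) % 2 = 1 then a - 2 ^ k else a + 2 ^ k

theorem bs_flip (a k : ℕ) : bs (flip a k) = symmDiff (bs a) {k} := by
  unfold flip
  by_cases h : (a / 2 ^ k) % 2 = 1
  · rw [if_pos h]
    have hk : k ∈ bs a := (mem_bs a k).mpr h
    have h1 : a - 2 ^ k = ∑ i ∈ (bs a).erase k, 2 ^ i := by
      have := Finset.add_sum_erase (bs a) (fun i => 2 ^ i) hk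
      rw [bs_sum] at this
      omega
    rw [h1, sum_bs]
    ext x
    simp only [Finset.mem_erase, Finset.mem_symmDiff, Finset.mem_singleton]
    constructor
    · rintro ⟨h2, h3⟩; exact Or.inl ⟨h3, h2⟩
    · rintro (⟨h2, h3⟩ | ⟨h2, h3⟩)
      · exact ⟨h3, h2⟩
      · subst h2; exact absurd hk h3
  · rw [if_neg h]
    have hk : k ∉ bs a := fun h' => h ((mem_bs a k).mp h')
    have h1 : a + 2 ^ k = ∑ i ∈ insert k (bs a), 2 ^ i := by
      rw [Finset.sum_insert hk, bs_sum]
      ring
    rw [h1, sum_bs]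
    ext x
    simp only [Finset.mem_insert, Finset.mem_symmDiff, Finset.mem_singleton]
    constructor
    · rintro (h2 | h2)
      · subst h2; exact Or.inr ⟨rfl, hk⟩
      · exact Or.inl ⟨h2, fun h' => hk (h' ▸ h2)⟩
    · rintro (⟨h2, h3⟩ | ⟨h2, h3⟩)
      · exact Or.inr h2
      · exact Or.inl h2

/-- The parity function of a code. -/
def pc (n x : ℕ) : ZMod 2 := par pre (bs n) x

/-- The indicator of the order. -/
def ind (k x : ℕ) : ZMod 2 := if pre k x then 1 else 0

theorem pc_flip (a k x : ℕ) : pc (flip a k) x = pc a x + ind k x := by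
  unfold pc ind
  rw [bs_flip, par_symmDiff]
  congr 1
  unfold par
  rw [Finset.sum_singleton]

theorem pc_foldl (L : List ℕ) (a x : ℕ) :
    pc (L.foldl flip a) x = pc a x + (L.map (fun k => ind k x)).sum := by
  induction L generalizing a with
  | nil => simp
  | cons k L ih =>
    rw [List.foldl_cons, ih, pc_flip, List.map_cons, List.sum_cons]
    ring

/-- The list of binary digits. -/
def bits (n : ℕ) : List ℕ := (List.range n).filter (fun i => decide ((n / 2 ^ i) % 2 = 1))

theorem bits_nodup (n : ℕ) : (bits n).Nodup := List.Nodup.filter _ List.nodup_range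

theorem bits_toFinset (n : ℕ) : (bits n).toFinset = bs n := by
  ext i
  rw [List.mem_toFinset, mem_bs]
  unfold bits
  rw [List.mem_filter, List.mem_range, decide_eq_true_iff]
  constructor
  · exact fun h => h.2
  · intro h
    refine ⟨?_, h⟩
    by_contra hc
    push Not at hc
    have h1 : n < 2 ^ i := lt_of_le_of_lt hc Nat.lt_two_pow_self
    rw [Nat.div_eq_of_lt h1] at h
    omega

theorem pc_bits (n x : ℕ) : pc n x = ((bits n).map (fun k => ind k x)).sum := by
  unfold pc par
  rw [← bits_toFinset, List.sum_toFinset _ (bits_nodup n)]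
  rfl

/-- The larger of two elements. -/
def mxp (i j : ℕ) : ℕ := if pre i j then j else i

theorem ind_mxp (i j x : ℕ) : ind (mxp i j) x = ind i x * ind j x := by
  unfold ind mxp
  by_cases h : pre i j
  · rw [if_pos h]
    by_cases hj : pre j x
    · rw [if_pos hj, if_pos (pre_trans h hj), mul_one]
    · rw [if_neg hj, mul_zero]
  · rw [if_neg h]
    have h' : pre j i := (pre_total i j).resolve_left h
    by_cases hi : pre i x
    · rw [if_pos hi, if_pos (pre_trans h' hi), mul_one]
    · rw [if_neg hi, zero_mul]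

/-- The code of the intersection. -/
def infC (m n : ℕ) : ℕ :=
  ((bits m).flatMap (fun i => (bits n).map (fun j => mxp i j))).foldl flip 0

theorem pc_zero (x : ℕ) : pc 0 x = 0 := by
  rw [pc_bits]; rfl

theorem pc_infC (m n x : ℕ) : pc (infC m n) x = pc m x * pc n x := by
  unfold infC
  rw [pc_foldl, pc_zero, zero_add, pc_bits m, pc_bits n]
  generalize bits m = A
  generalize bits n = B
  induction A with
  | nil => simp
  | cons i A ih =>
    rw [List.flatMap_cons, List.map_append, List.sum_append, ih, List.map_cons, List.sum_cons, add_mul]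
    congr 1
    rw [← List.sum_map_mul_left, List.map_map]
    congr 1
    apply List.map_congr_left
    intro j _
    exact ind_mxp i j x

theorem mem_ee (n x : ℕ) : x ∈ ((ee n : FC) : Set ℕ) ↔ pc n x = 1 := Iff.rfl

theorem ee_infC (m n : ℕ) : ee (infC m n) = ee m ⊓ ee n := by
  apply Subtype.ext
  ext x
  show pc (infC m n) x = 1 ↔ pc m x = 1 ∧ pc n x = 1
  rw [pc_infC]
  generalize pc m x = a
  generalize pc n x = b
  revert a b
  decide

/-- The least element. -/
noncomputable def m0 : ℕ := exists_bot.choose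

theorem m0_spec (x : ℕ) : pre m0 x := exists_bot.choose_spec x

/-- The code of the complement. -/
noncomputable def complC (m : ℕ) : ℕ := flip m m0

theorem ee_complC (m : ℕ) : ee (complC m) = (ee m)ᶜ := by
  apply Subtype.ext
  ext x
  show pc (complC m) x = 1 ↔ ¬ (pc m x = 1)
  unfold complC
  rw [pc_flip]
  have h1 : ind m0 x = 1 := if_pos (m0_spec x)
  rw [h1]
  generalize pc m x = a
  revert a
  decide

theorem ee_supC (m n : ℕ) : ee (complC (infC (complC m) (complC n))) = ee m ⊔ ee n := by
  rw [ee_complC, ee_infC, ee_complC, ee_complC, compl_inf, compl_compl, compl_compl]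

/-! ### Primitive recursion -/

theorem digit_prim : PrimrecRel (fun i n : ℕ => (n / 2 ^ i) % 2 = 1) := by
  have hpow : Primrec₂ (fun a b : ℕ => a ^ b) := Primrec₂.unpaired'.mp Nat.Primrec.pow
  have h1 : Primrec (fun p : ℕ × ℕ => p.2 / 2 ^ p.1) :=
    Primrec.nat_div.comp Primrec.snd (hpow.comp (Primrec.const 2) Primrec.fst)
  exact Primrec.eq.comp (Primrec.nat_mod.comp h1 (Primrec.const 2)) (Primrec.const 1)

theorem flip_prim : Primrec₂ flip := by
  have hpow : Primrec₂ (fun a b : ℕ => a ^ b) := Primrec₂.unpaired'.mp Nat.Primrec.pow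
  have h1 : Primrec (fun p : ℕ × ℕ => 2 ^ p.2) := hpow.comp (Primrec.const 2) Primrec.snd
  have h2 : PrimrecPred (fun p : ℕ × ℕ => (p.1 / 2 ^ p.2) % 2 = 1) :=
    digit_prim.comp Primrec.snd Primrec.fst
  exact Primrec.ite h2 (Primrec.nat_sub.comp Primrec.fst h1) (Primrec.nat_add.comp Primrec.fst h1)

theorem bits_prim : Primrec bits := by
  have h1 := digit_prim.listFilter
  have h2 := h1.comp Primrec.list_range Primrec.id
  exact h2

theorem mxp_prim : Primrec₂ mxp := Primrec.ite pre_prim Primrec.snd Primrec.fst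

theorem infC_prim : Primrec₂ infC := by
  have h1 : Primrec₂ (fun (p : ℕ × ℕ) (i : ℕ) => (bits p.2).map (fun j => mxp i j)) := by
    have h2 : Primrec (fun q : (ℕ × ℕ) × ℕ => bits q.1.2) :=
      bits_prim.comp (Primrec.snd.comp Primrec.fst)
    have h3 : Primrec₂ (fun (q : (ℕ × ℕ) × ℕ) (j : ℕ) => mxp q.2 j) :=
      mxp_prim.comp (Primrec.snd.comp Primrec.fst) Primrec.snd
    exact Primrec.list_map h2 h3
  have h4 : Primrec (fun p : ℕ × ℕ => (bits p.1).flatMap
      (fun i => (bits p.2).map (fun j => mxp i j))) :=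
    Primrec.list_flatMap (bits_prim.comp Primrec.fst) h1
  have h5 : Primrec₂ (fun (_ : ℕ × ℕ) (q : ℕ × ℕ) => flip q.1 q.2) :=
    flip_prim.comp (Primrec.fst.comp Primrec.snd) (Primrec.snd.comp Primrec.snd)
  exact Primrec.list_foldl h4 (Primrec.const 0) h5

theorem complC_prim : Primrec complC := flip_prim.comp Primrec.id (Primrec.const m0)

theorem comp_inf : Computable₂ (fun m n : ℕ => ee.symm (ee m ⊓ ee n)) := by
  have h : (fun m n : ℕ => ee.symm (ee m ⊓ ee n)) = infC := by
    funext m n
    rw [Equiv.symm_apply_eq, ee_infC]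
  rw [h]
  exact infC_prim.to_comp

theorem comp_compl : Computable (fun n : ℕ => ee.symm (ee n)ᶜ) := by
  have h : (fun n : ℕ => ee.symm (ee n)ᶜ) = complC := by
    funext n
    rw [Equiv.symm_apply_eq, ee_complC]
  rw [h]
  exact complC_prim.to_comp

theorem comp_sup : Computable₂ (fun m n : ℕ => ee.symm (ee m ⊔ ee n)) := by
  have h : (fun m n : ℕ => ee.symm (ee m ⊔ ee n)) =
      fun m n => complC (infC (complC m) (complC n)) := by
    funext m n
    rw [Equiv.symm_apply_eq, ee_supC]
  rw [h]
  have h1 : Primrec₂ (fun m n => complC (infC (complC m) (complC n))) :=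
    complC_prim.comp (infC_prim.comp (complC_prim.comp Primrec.fst) (complC_prim.comp Primrec.snd))
  exact h1.to_comp

end Pool.Agent.Helper645.Intal
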