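import Pool.Agent.Helper645.Intal.Code

/-!
The finite and cofinite algebra, presented so that finiteness is not computable, is not computably
isomorphic to the interval algebra of a computable copy of omega.
-/

set_option autoImplicit false

namespace Pool.Agent.Helper645.Intal

open Finset

/-- The sets of the interval algebra of the natural numbers. -/
def RR : Set (Set ℕ) := {X : Set ℕ | ∃ S : Finset ℕ, ∃ b : Bool,
  X = {x : ℕ | Xor' (b = true) (Odd (S.filter (fun s => s ≤ x)).card)}}

theorem odd_iff_par (S : Finset ℕ) (x : ℕ) :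
    Odd (S.filter (fun s => s ≤ x)).card ↔ par (· ≤ ·) S x = 1 := by
  rw [← ZMod.natCast_eq_one_iff_odd, Finset.card_filter]
  unfold par
  push_cast
  rfl

theorem mem_RR_iff {X : Set ℕ} : X ∈ RR ↔ FCo X := by
  constructor
  · rintro ⟨S, b, rfl⟩
    -- constant for large `x`
    have h1 : ∀ x, S.sup id ≤ x → (S.filter (fun s => s ≤ x)) = S := by
      intro x hx
      apply Finset.filter_true_of_mem
      intro s hs
      exact (Finset.le_sup (f := id) hs).trans hx
    by_cases h : Xor' (b = true) (Odd S.card)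
    · refine Or.inr ((Set.finite_Iio (S.sup id)).subset ?_)
      intro x hx
      by_contra hc
      apply hx
      show Xor' (b = true) (Odd (S.filter (fun s => s ≤ x)).card)
      rw [h1 x (by simpa using hc)]
      exact h
    · refine Or.inl ((Set.finite_Iio (S.sup id)).subset ?_)
      intro x hx
      by_contra hc
      have hx' : Xor' (b = true) (Odd (S.filter (fun s => s ≤ x)).card) := hx
      rw [h1 x (by simpa using hc)] at hx'
      exact h hx'
  · intro hX
    have key : ∃ S : Finset ℕ, X = XS (· ≤ ·) S := by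
      apply all_of_symmDiff (fun X => ∃ S : Finset ℕ, X = XS (· ≤ ·) S) _ _ _ _ hX
      · exact ⟨∅, (XS_empty _).symm⟩
      · intro m
        refine ⟨symmDiff {m} {m + 1}, ?_⟩
        rw [XS_symmDiff, XS_singleton, XS_singleton]
        ext x
        simp only [Set.mem_symmDiff, Set.mem_ofPred_eq, Set.mem_singleton_iff]
        omega
      · refine ⟨{0}, ?_⟩
        rw [XS_singleton]
        ext x
        simp
      · rintro X Y ⟨S, rfl⟩ ⟨T, rfl⟩
        exact ⟨symmDiff S T, (XS_symmDiff _ S T).symm⟩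
    obtain ⟨S, rfl⟩ := key
    refine ⟨S, false, ?_⟩
    ext x
    show par (· ≤ ·) S x = 1 ↔ Xor' (false = true) (Odd (S.filter (fun s => s ≤ x)).card)
    rw [odd_iff_par]
    simp [Xor']

theorem FCo_finite_iff_of_le {X : Set ℕ} :
    X.Finite ↔ {Z : Set ℕ | FCo Z ∧ Z ⊆ X}.Finite := by
  constructor
  · intro h
    exact h.finite_subsets.subset fun Z hZ => hZ.2
  · intro h
    by_contra hX
    have hinf : Set.Infinite X := hX
    have h1 : (fun x : ℕ => ({x} : Set ℕ)) '' X ⊆ {Z : Set ℕ | FCo Z ∧ Z ⊆ X} := by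
      rintro _ ⟨x, hx, rfl⟩
      exact ⟨Or.inl (Set.finite_singleton x), Set.singleton_subset_iff.mpr hx⟩
    have h2 := h.subset h1
    have h3 := Set.Finite.of_finite_image h2 (Set.singleton_injective.injOn)
    exact hX h3

/-- An isomorphism preserves finiteness. -/
theorem iso_finite (ψ : FC → Set ℕ) (hinj : Function.Injective ψ)
    (hsup : ∀ a b, ψ (a ⊔ b) = ψ a ∪ ψ b) (hrange : Set.range ψ = RR) (a : FC) :
    (ψ a).Finite ↔ (a : Set ℕ).Finite := by
  have hle : ∀ b c : FC, (b : Set ℕ) ⊆ c ↔ ψ b ⊆ ψ c := by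
    intro b c
    constructor
    · intro h
      have h1 : b ⊔ c = c := Subtype.ext (Set.union_eq_right.mpr h)
      have h2 := hsup b c
      rw [h1] at h2
      rw [h2]
      exact Set.subset_union_left
    · intro h
      have h1 : ψ (b ⊔ c) = ψ c := by rw [hsup]; exact Set.union_eq_right.mpr h
      have h2 := hinj h1
      have h3 : (b : Set ℕ) ∪ c = c := congrArg Subtype.val h2
      exact Set.union_eq_right.mp h3
  rw [FCo_finite_iff_of_le (X := ψ a), FCo_finite_iff_of_le (X := (a : Set ℕ))]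
  have h1 : {Z : Set ℕ | FCo Z ∧ Z ⊆ ψ a} = ψ '' {b : FC | (b : Set ℕ) ⊆ a} := by
    ext Z
    constructor
    · rintro ⟨hZ, hZa⟩
      have : Z ∈ Set.range ψ := by rw [hrange]; exact mem_RR_iff.mpr hZ
      obtain ⟨b, rfl⟩ := this
      exact ⟨b, (hle b a).mpr hZa, rfl⟩
    · rintro ⟨b, hb, rfl⟩
      refine ⟨?_, (hle b a).mp hb⟩
      apply mem_RR_iff.mp
      rw [← hrange]
      exact ⟨b, rfl⟩
  have h2 : {Z : Set ℕ | FCo Z ∧ Z ⊆ (a : Set ℕ)} =
      (fun b : FC => (b : Set ℕ)) '' {b : FC | (b : Set ℕ) ⊆ a} := by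
    ext Z
    constructor
    · rintro ⟨hZ, hZa⟩
      exact ⟨⟨Z, hZ⟩, hZa, rfl⟩
    · rintro ⟨b, hb, rfl⟩
      exact ⟨b.2, hb⟩
  rw [h1, h2, Set.finite_image_iff hinj.injOn, Set.finite_image_iff Subtype.val_injective.injOn]

/-- The finiteness of a coded interval set is decided by the code. -/
theorem code_finite (l' : ℕ ≃ ℕ) (L : List ℕ) (b : Bool) :
    {x : ℕ | Xor' (b = true) (Odd (L.filter (fun s => decide (l' s ≤ x))).length)}.Finite ↔
      ¬ Xor' (b = true) (Odd L.length) := by
  obtain ⟨N, hN⟩ : ∃ N, ∀ s ∈ L, l' s ≤ N := by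
    refine ⟨(L.toFinset).sup (fun s => l' s), fun s hs => ?_⟩
    exact Finset.le_sup (f := fun s => l' s) (List.mem_toFinset.mpr hs)
  have h1 : ∀ x, N ≤ x → L.filter (fun s => decide (l' s ≤ x)) = L := by
    intro x hx
    rw [List.filter_eq_self]
    intro s hs
    simpa using (hN s hs).trans hx
  constructor
  · intro hfin h
    have h2 : Set.Ici N ⊆
        {x : ℕ | Xor' (b = true) (Odd (L.filter (fun s => decide (l' s ≤ x))).length)} := by
      intro x hx
      show Xor' (b = true) (Odd (L.filter (fun s => decide (l' s ≤ x))).length)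
      rw [h1 x hx]
      exact h
    exact Set.infinite_of_injective_forall_mem (f := fun n : ℕ => N + n)
      (fun a b h => by simpa using h) (fun n => h2 (Nat.le_add_right N n)) hfin
  · intro h
    refine (Set.finite_Iio N).subset ?_
    intro x hx
    by_contra hc
    have hx' : Xor' (b = true) (Odd (L.filter (fun s => decide (l' s ≤ x))).length) := hx
    rw [h1 x (by simpa using hc)] at hx'
    exact h hx'

/-- The main contradiction. -/
theorem no_iso (l' : ℕ ≃ ℕ) (ψ : FC → Set ℕ) (hinj : Function.Injective ψ)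
    (hsup : ∀ a b, ψ (a ⊔ b) = ψ a ∪ ψ b) (hrange : Set.range ψ = RR)
    (c : ℕ → List ℕ × Bool) (hc : Computable c)
    (hcode : ∀ n : ℕ, ψ (ee n) = {x : ℕ | Xor' ((c n).2 = true)
      (Odd ((c n).1.filter (fun s => decide (l' s ≤ x))).length)}) : False := by
  have h1 : ∀ s : ℕ, Tr s ↔ (Xor' ((c (2 ^ s)).2 = true) (Odd (c (2 ^ s)).1.length)) := by
    intro s
    have h2 : ((ee (2 ^ s) : FC) : Set ℕ) = {x | pre s x} := by
      rw [ee_val]
      have h3 : (2 ^ s).bitIndices.toFinset = {s} := by
        have := sum_bs {s}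
        rw [Finset.sum_singleton] at this
        exact this
      rw [h3, XS_singleton]
    have h4 := iso_finite ψ hinj hsup hrange (ee (2 ^ s))
    rw [hcode, code_finite, h2, up_finite_iff] at h4
    exact (not_iff_not.mp h4).symm
  have hpow : Primrec (fun s : ℕ => 2 ^ s) := by
    have hpow : Primrec₂ (fun a b : ℕ => a ^ b) := Primrec₂.unpaired'.mp Nat.Primrec.pow
    exact hpow.comp (Primrec.const 2) Primrec.id
  have h5 : Computable (fun s : ℕ => c (2 ^ s)) := hc.comp hpow.to_comp
  have h6 : Computable (fun s : ℕ => xor (c (2 ^ s)).2 (Nat.bodd (c (2 ^ s)).1.length)) := by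
    have h7 : Computable (fun s : ℕ => (c (2 ^ s)).2) := Computable.snd.comp h5
    have h8 : Computable (fun s : ℕ => Nat.bodd (c (2 ^ s)).1.length) :=
      Primrec.nat_bodd.to_comp.comp (Primrec.list_length.to_comp.comp (Computable.fst.comp h5))
    exact (Primrec.dom_bool₂ xor).to_comp.comp h7 h8
  have h9 : ∀ s : ℕ, (xor (c (2 ^ s)).2 (Nat.bodd (c (2 ^ s)).1.length) = true) ↔ Tr s := by
    intro s
    rw [h1 s, Nat.odd_iff, Nat.mod_two_of_bodd]
    generalize (c (2 ^ s)).2 = b
    generalize Nat.bodd (c (2 ^ s)).1.length = d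
    cases b <;> cases d <;> simp [Xor']
  apply tr_not_computable
  classical
  refine ⟨fun s => Classical.propDecidable _, h6.of_eq ?_⟩
  intro s
  rw [Bool.eq_iff_iff, decide_eq_true_iff]
  exact h9 s

end Pool.Agent.Helper645.Intal
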