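import Mathlib

/-!
A computable linear order on the natural numbers of type omega + omega*, whose initial part is not
computable (true stages of an enumeration of the halting set).
-/

set_option autoImplicit false

namespace Pool.Agent.Helper645.Intal

open Nat.Partrec Nat.Partrec.Code Encodable Denumerable

/-- The program with code `n` halts on input `0` at exactly `k + 1` steps. -/
def hit (n k : ℕ) : Prop :=
  (evaln (k + 1) (ofNat Code n) 0).isSome = true ∧ (evaln k (ofNat Code n) 0).isSome = false

instance : DecidableRel hit := fun _ _ => inferInstanceAs (Decidable (_ ∧ _))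

/-- An injective enumeration. -/
def ff (s : ℕ) : ℕ := if hit s.unpair.1 s.unpair.2 then 2 * s.unpair.1 else 2 * s + 1

theorem hit_unique {n k l : ℕ} (h : hit n k) (h' : hit n l) : k = l := by
  by_contra hne
  have key : ∀ {a b : ℕ}, hit n a → hit n b → a < b → False := by
    intro a b ha hb hab
    obtain ⟨x, hx⟩ := Option.isSome_iff_exists.mp ha.1
    have h1 : x ∈ evaln b (ofNat Code n) 0 := evaln_mono hab hx
    have h2 := hb.2
    rw [Option.mem_def.mp h1] at h2
    simp at h2
  rcases lt_or_gt_of_ne hne with h1 | h1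
  · exact key h h' h1
  · exact key h' h h1

theorem ff_inj : Function.Injective ff := by
  intro s t hst
  unfold ff at hst
  by_cases hs : hit s.unpair.1 s.unpair.2 <;> by_cases ht : hit t.unpair.1 t.unpair.2
  · rw [if_pos hs, if_pos ht] at hst
    have h1 : s.unpair.1 = t.unpair.1 := by omega
    rw [← h1] at ht
    have h2 := hit_unique hs ht
    rw [← Nat.pair_unpair s, ← Nat.pair_unpair t, h1, h2]
  · rw [if_pos hs, if_neg ht] at hst; omega
  · rw [if_neg hs, if_pos ht] at hst; omega
  · rw [if_neg hs, if_neg ht] at hst; omega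

theorem halt_iff (n : ℕ) : (eval (ofNat Code n) 0).Dom ↔ ∃ s, ff s = 2 * n := by
  constructor
  · intro h
    obtain ⟨x, hx⟩ := Part.dom_iff_mem.mp h
    obtain ⟨k, hk⟩ := evaln_complete.mp hx
    have hex : ∃ k, (evaln k (ofNat Code n) 0).isSome = true :=
      ⟨k, by rw [Option.mem_def.mp hk]; rfl⟩
    classical
    have h1 := Nat.find_spec hex
    have h0 : Nat.find hex ≠ 0 := by
      intro h0
      rw [h0] at h1
      simp [evaln] at h1
    obtain ⟨l, hl⟩ := Nat.exists_eq_succ_of_ne_zero h0
    have h2 : (evaln l (ofNat Code n) 0).isSome = false := by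
      have := Nat.find_min hex (m := l) (by omega)
      simpa using this
    rw [hl] at h1
    refine ⟨Nat.pair n l, ?_⟩
    unfold ff
    rw [Nat.unpair_pair]
    rw [if_pos]
    exact ⟨h1, h2⟩
  · rintro ⟨s, hs⟩
    unfold ff at hs
    by_cases h : hit s.unpair.1 s.unpair.2
    · rw [if_pos h] at hs
      have h1 : s.unpair.1 = n := by omega
      rw [h1] at h
      obtain ⟨x, hx⟩ := Option.isSome_iff_exists.mp h.1
      exact Part.dom_iff_mem.mpr ⟨x, evaln_complete.mpr ⟨_, hx⟩⟩
    · rw [if_neg h] at hs; omega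

theorem ff_prim : Primrec ff := by
  have h1 : Primrec (fun p : ℕ × ℕ => (evaln p.1 (ofNat Code p.2) 0).isSome) := by
    have h2 : Primrec (fun p : ℕ × ℕ => ((p.1, ofNat Code p.2), (0 : ℕ))) :=
      ((Primrec.fst.pair ((Primrec.ofNat Code).comp Primrec.snd)).pair (Primrec.const 0))
    exact Primrec.option_isSome.comp (primrec_evaln.comp h2)
  have hit_prim : PrimrecPred (fun s : ℕ => hit s.unpair.1 s.unpair.2) := by
    have ha : Primrec (fun s : ℕ => s.unpair.1) := Primrec.fst.comp Primrec.unpair
    have hb : Primrec (fun s : ℕ => s.unpair.2) := Primrec.snd.comp Primrec.unpair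
    have hc : PrimrecPred (fun s : ℕ =>
        (evaln (s.unpair.2 + 1) (ofNat Code s.unpair.1) 0).isSome = true) :=
      Primrec.eq.comp (h1.comp ((Primrec.succ.comp hb).pair ha)) (Primrec.const true)
    have hd : PrimrecPred (fun s : ℕ =>
        (evaln s.unpair.2 (ofNat Code s.unpair.1) 0).isSome = false) :=
      Primrec.eq.comp (h1.comp (hb.pair ha)) (Primrec.const false)
    exact hc.and hd
  have ha : Primrec (fun s : ℕ => s.unpair.1) := Primrec.fst.comp Primrec.unpair
  exact Primrec.ite hit_prim (Primrec.nat_double.comp ha) Primrec.nat_double_succ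

/-- `s` looks true at the stage `t`. -/
def alive (s t : ℕ) : Prop := ∀ u < t + 1, s < u → ff s < ff u

instance : DecidableRel alive := fun _ _ => inferInstanceAs (Decidable (∀ _ < _, _))

/-- The order of type omega + omega*. -/
def pre (s t : ℕ) : Prop := (s ≤ t ∧ alive s t) ∨ (t < s ∧ ¬ alive t s)

instance : DecidableRel pre := fun _ _ => inferInstanceAs (Decidable (_ ∨ _))

/-- True stages. -/
def Tr (s : ℕ) : Prop := ∀ u, s < u → ff s < ff u

theorem alive_prim : PrimrecRel alive := by
  have h1 : PrimrecRel (fun (u : ℕ) (s : ℕ) => s < u → ff s < ff u) := by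
    have ha : PrimrecRel (fun (u : ℕ) (s : ℕ) => ¬ s < u) :=
      (Primrec.nat_lt.comp Primrec.snd Primrec.fst).not
    have hb : PrimrecRel (fun (u : ℕ) (s : ℕ) => ff s < ff u) :=
      Primrec.nat_lt.comp (ff_prim.comp Primrec.snd) (ff_prim.comp Primrec.fst)
    refine (PrimrecPred.or ha hb).of_eq ?_
    intro p
    tauto
  have h2 := h1.forall_lt
  exact (h2.comp (Primrec.succ.comp Primrec.snd) Primrec.fst).of_eq fun p => Iff.rfl

theorem pre_prim : PrimrecRel pre := by
  have h1 : PrimrecPred (fun p : ℕ × ℕ => p.1 ≤ p.2) := Primrec.nat_le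
  have h2 : PrimrecPred (fun p : ℕ × ℕ => alive p.1 p.2) := alive_prim
  have h3 : PrimrecPred (fun p : ℕ × ℕ => p.2 < p.1) := Primrec.nat_lt.comp Primrec.snd Primrec.fst
  have h4 : PrimrecPred (fun p : ℕ × ℕ => ¬ alive p.2 p.1) :=
    (alive_prim.comp Primrec.snd Primrec.fst).not
  exact (h1.and h2).or (h3.and h4)

theorem alive_refl (s : ℕ) : alive s s := fun u hu hs => by omega

theorem alive_left {x y z : ℕ} (hyz : y ≤ z) (h : alive x z) : alive x y :=
  fun u hu hx => h u (by omega) hx

theorem alive_trans {x y z : ℕ} (hxy : x ≤ y) (h1 : alive x y) (h2 : alive y z) : alive x z := by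
  intro u hu hx
  rcases Nat.lt_or_ge y u with h | h
  · have h3 : ff y < ff u := h2 u hu h
    rcases Nat.eq_or_lt_of_le hxy with h4 | h4
    · rw [h4]; exact h3
    · exact lt_trans (h1 y (by omega) h4) h3
  · exact h1 u (by omega) hx

theorem pre_refl (s : ℕ) : pre s s := Or.inl ⟨le_refl s, alive_refl s⟩

theorem pre_total (s t : ℕ) : pre s t ∨ pre t s := by
  unfold pre
  rcases lt_trichotomy s t with h | h | h
  · by_cases ha : alive s t
    · exact Or.inl (Or.inl ⟨h.le, ha⟩)
    · exact Or.inr (Or.inr ⟨h, ha⟩)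
  · subst h
    exact Or.inl (Or.inl ⟨le_refl _, alive_refl _⟩)
  · by_cases ha : alive t s
    · exact Or.inr (Or.inl ⟨h.le, ha⟩)
    · exact Or.inl (Or.inr ⟨h, ha⟩)

theorem pre_antisymm {s t : ℕ} (h : pre s t) (h' : pre t s) : s = t := by
  rcases h with ⟨h1, h2⟩ | ⟨h1, h2⟩ <;> rcases h' with ⟨h3, h4⟩ | ⟨h3, h4⟩
  · omega
  · exact absurd h2 h4
  · exact absurd h4 h2
  · omega

theorem pre_trans {a b c : ℕ} (h : pre a b) (h' : pre b c) : pre a c := by
  by_contra hac
  unfold pre at h h' hac
  rcases h with ⟨h1, h2⟩ | ⟨h1, h2⟩ <;> rcases h' with ⟨h3, h4⟩ | ⟨h3, h4⟩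
  · exact hac (Or.inl ⟨h1.trans h3, alive_trans h1 h2 h4⟩)
  · rcases Nat.lt_or_ge c a with h5 | h5
    · refine hac (Or.inr ⟨h5, fun h6 => h4 ?_⟩)
      exact alive_trans h5.le h6 h2
    · exact hac (Or.inl ⟨h5, alive_left h3.le h2⟩)
  · rcases Nat.lt_or_ge c a with h5 | h5
    · exact hac (Or.inr ⟨h5, fun h6 => h2 (alive_trans h3 h4 h6)⟩)
    · exact h2 (alive_left h5 h4)
  · exact hac (Or.inr ⟨h3.trans h1, fun h6 => h4 (alive_left h1.le h6)⟩)

/-- The order as a linear order on a copy of the natural numbers. -/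
def M : Type := ℕ

instance : LinearOrder M where
  le s t := pre s t
  le_refl := pre_refl
  le_trans _ _ _ := pre_trans
  le_antisymm _ _ := pre_antisymm
  le_total := pre_total
  toDecidableLE := fun s t => inferInstanceAs (Decidable (pre s t))

theorem tr_alive {s : ℕ} (h : Tr s) (t : ℕ) : alive s t := fun u _ hs => h u hs

/-- A true stage has finitely many predecessors. -/
theorem tr_fin {s : ℕ} (h : Tr s) {t : ℕ} (ht : pre t s) : t ≤ s := by
  by_contra hc
  push Not at hc
  rcases ht with ⟨h1, -⟩ | ⟨h1, h2⟩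
  · omega
  · exact h2 (tr_alive h t)

/-- A false stage has finitely many successors. -/
theorem ntr_fin {s : ℕ} (h : ¬ Tr s) : ∃ N, ∀ t, pre s t → t ≤ N := by
  unfold Tr at h
  push Not at h
  obtain ⟨u, hu, hfu⟩ := h
  refine ⟨u, fun t ht => ?_⟩
  by_contra hc
  push Not at hc
  rcases ht with ⟨h1, h2⟩ | ⟨h1, h2⟩
  · have := h2 u (by omega) hu
    omega
  · omega

/-- There are true stages with arbitrarily large values. -/
theorem exists_tr (N : ℕ) : ∃ s, Tr s ∧ N < ff s := by
  classical
  -- all stages from `K` on have values above `N`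
  obtain ⟨K, hK⟩ : ∃ K, ∀ s, K ≤ s → N < ff s := by
    have hfin : {s | ff s ≤ N}.Finite := Set.Finite.preimage ff_inj.injOn (Set.finite_Iic N)
    obtain ⟨B, hB⟩ := hfin.bddAbove
    refine ⟨B + 1, fun s hs => ?_⟩
    by_contra hc
    push Not at hc
    have := hB (show s ∈ {s | ff s ≤ N} from hc)
    omega
  have hne : ∃ v, ∃ s, K ≤ s ∧ ff s = v := ⟨_, K, le_refl _, rfl⟩
  obtain ⟨s, hs, hv⟩ := Nat.find_spec hne
  refine ⟨s, fun u hu => ?_, hK s hs⟩
  have h1 : Nat.find hne ≤ ff u := Nat.find_min' hne ⟨u, by omega, rfl⟩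
  have h2 : ff s ≠ ff u := fun h => by
    have := ff_inj h
    omega
  omega

/-- The set of true stages is not computable. -/
theorem tr_not_computable : ¬ ComputablePred Tr := by
  intro hT
  obtain ⟨hdec, hcomp⟩ := hT
  -- the search function
  have hp : Computable₂ (fun (n : ℕ) (s : ℕ) => (decide (Tr s) && decide (2 * n < ff s))) := by
    have h1 : Computable (fun p : ℕ × ℕ => decide (Tr p.2)) := hcomp.comp Computable.snd
    have h2 : Computable (fun p : ℕ × ℕ => decide (2 * p.1 < ff p.2)) := by
      have : PrimrecPred (fun p : ℕ × ℕ => 2 * p.1 < ff p.2) :=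
        Primrec.nat_lt.comp (Primrec.nat_double.comp Primrec.fst) (ff_prim.comp Primrec.snd)
      exact this.decide.to_comp
    exact (Primrec.and.to_comp.comp h1 h2)
  have hr : Partrec (fun n : ℕ => Nat.rfind (fun s => Part.some
      (decide (Tr s) && decide (2 * n < ff s)))) := Partrec.rfind hp.partrec₂
  have hdom : ∀ n : ℕ, (Nat.rfind (fun s => Part.some
      (decide (Tr s) && decide (2 * n < ff s)))).Dom := by
    intro n
    obtain ⟨s, hs1, hs2⟩ := exists_tr (2 * n)
    rw [Nat.rfind_dom']
    refine ⟨s, ?_, fun {m} _ => trivial⟩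
    simp [hs1, hs2]
  let g : ℕ → ℕ := fun n => (Nat.rfind (fun s => Part.some
      (decide (Tr s) && decide (2 * n < ff s)))).get (hdom n)
  have hg : Computable g := hr.of_eq fun n => (Part.some_get (hdom n)).symm
  have hgs : ∀ n, Tr (g n) ∧ 2 * n < ff (g n) := by
    intro n
    have h1 : g n ∈ Nat.rfind (fun s => Part.some
      (decide (Tr s) && decide (2 * n < ff s))) := Part.get_mem (hdom n)
    have h2 := Nat.rfind_spec h1
    simpa using h2
  have hK : ComputablePred (fun n : ℕ => (eval (ofNat Code n) 0).Dom) := by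
    have h1 : PrimrecRel (fun (m n : ℕ) => ∃ s < m, ff s = 2 * n) := by
      have : PrimrecRel (fun (s n : ℕ) => ff s = 2 * n) :=
        Primrec.eq.comp (ff_prim.comp Primrec.fst) (Primrec.nat_double.comp Primrec.snd)
      exact this.exists_lt
    obtain ⟨hd, h2⟩ := h1
    have h3 : Computable (fun n : ℕ => decide (∃ s < g n + 1, ff s = 2 * n)) := by
      have h4 : Computable (fun n : ℕ => (g n + 1, n)) :=
        (Computable.succ.comp hg).pair Computable.id
      have h5 := h2.to_comp.comp h4
      refine h5.of_eq ?_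
      intro n
      simp
    have hiff : ∀ n : ℕ, (∃ s < g n + 1, ff s = 2 * n) ↔ (eval (ofNat Code n) 0).Dom := by
      intro n
      rw [halt_iff]
      constructor
      · rintro ⟨s, -, hs⟩; exact ⟨s, hs⟩
      · rintro ⟨s, hs⟩
        refine ⟨s, ?_, hs⟩
        by_contra hc
        have h6 := (hgs n).1 s (by omega)
        have h7 := (hgs n).2
        omega
    refine ⟨fun n => decidable_of_iff _ (hiff n), h3.of_eq ?_⟩
    intro n
    exact decide_eq_decide.mpr (hiff n)
  have hfinal : ComputablePred (fun c : Code => (eval c 0).Dom) := by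
    obtain ⟨hd, h2⟩ := hK
    have h3 : Computable (fun c : Code => decide ((eval (ofNat Code (encode c)) 0).Dom)) :=
      h2.comp Computable.encode
    have hiff : ∀ c : Code, (eval (ofNat Code (encode c)) 0).Dom ↔ (eval c 0).Dom := by
      intro c
      rw [ofNat_encode]
    refine ⟨fun c => decidable_of_iff _ (hiff c), h3.of_eq ?_⟩
    intro c
    exact decide_eq_decide.mpr (hiff c)
  exact ComputablePred.halting_problem 0 hfinal

end Pool.Agent.Helper645.Intal
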